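import Pool.Agent.W426.LE.Final
set_option autoImplicit false
set_option linter.all false

/-! List edge colouring versions, monotonicity, and the final theorems for subgraphs. -/

namespace Pool.Agent.W426.LE.EL

open Finset Pool.Agent.W426.LE
open scoped Classical

/-- `G` has a proper edge colouring from all lists of size at least `d` -/
def EL {V : Type} (G : SimpleGraph V) (d : ℕ) : Prop :=
  ∀ L : G.edgeSet → Finset ℕ, (∀ e, d ≤ (L e).card) →
    ∃ f : G.edgeSet → ℕ, (∀ e, f e ∈ L e) ∧ ∀ e e', G.lineGraph.Adj e e' → f e ≠ f e'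

/-- from the criterion to simple graphs -/
def S_GRE : Prop := ∀ (V E D C : Type) [Fintype V] [Fintype E] [Fintype D] [Fintype C]
  (ρ : D ≃ C) (inc : V → D → E) (G : SimpleGraph V) (ψ : E ≃ G.edgeSet),
  (∀ v i, v ∈ (ψ (inc v i) : Sym2 V)) →
  (∀ v e, v ∈ (ψ e : Sym2 V) → ∃ i, inc v i = e) →
  (∀ v, Function.Injective (inc v)) →
  NN ρ inc ≠ 0 → EL G (Fintype.card D)

theorem gre (h : S_CRIT) : S_GRE := by
  intro V E D C _ _ _ _ ρ inc G ψ h1 h2 h3 hN L hL
  obtain ⟨f, hf1, hf2⟩ := h V E D C ρ inc (Pool.Agent.W15.LEGR.card_two inc G ψ h1 h2 h3) hN (fun e => L (ψ e))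
    (fun e => hL _)
  refine ⟨fun e => f (ψ.symm e), fun e => by simpa using hf1 (ψ.symm e), ?_⟩
  intro e e' hadj
  rw [SimpleGraph.lineGraph_adj_iff_exists] at hadj
  obtain ⟨hne, v, hv, hv'⟩ := hadj
  obtain ⟨i, hi⟩ := h2 v (ψ.symm e) (by simpa using hv)
  obtain ⟨j, hj⟩ := h2 v (ψ.symm e') (by simpa using hv')
  intro hfe
  simp only [← hi, ← hj] at hfe
  have hij := hf2 v hfe
  subst hij
  exact hne (ψ.symm.injective (hi.symm.trans hj))

/-- monotonicity -/
theorem mono {V W : Type} (G : SimpleGraph V) (H : SimpleGraph W) (φ : V → W) (hφ : Function.Injective φ)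
    (h : ∀ u v, G.Adj u v → H.Adj (φ u) (φ v)) (d : ℕ) (hH : EL H d) : EL G d := by
  intro L hL
  have hmem : ∀ e : G.edgeSet, Sym2.map φ (e : Sym2 V) ∈ H.edgeSet := by
    rintro ⟨e, he⟩
    induction e using Sym2.ind with
    | _ a b =>
      exact h a b he
  let g : G.edgeSet → H.edgeSet := fun e => ⟨Sym2.map φ e, hmem e⟩
  have hg : Function.Injective g := by
    intro e e' hee
    have : Sym2.map φ (e : Sym2 V) = Sym2.map φ (e' : Sym2 V) := congrArg Subtype.val hee
    exact Subtype.ext (Sym2.map.injective hφ this)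
  obtain ⟨f, hf1, hf2⟩ := hH
    (fun e => if he : ∃ e', g e' = e then L he.choose else range d) (by
      intro e
      split_ifs with he
      · exact hL _
      · simp)
  refine ⟨fun e => f (g e), ?_, ?_⟩
  · intro e
    have h1 := hf1 (g e)
    have he : ∃ e', g e' = g e := ⟨e, rfl⟩
    rw [dif_pos he] at h1
    have h2 : he.choose = e := hg he.choose_spec
    rw [h2] at h1
    exact h1
  · intro e e' hadj
    apply hf2
    rw [SimpleGraph.lineGraph_adj_iff_exists] at hadj ⊢
    obtain ⟨hne, v, hv, hv'⟩ := hadj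
    exact ⟨fun h => hne (hg h), φ v, Sym2.mem_map.2 ⟨v, hv, rfl⟩, Sym2.mem_map.2 ⟨v, hv', rfl⟩⟩

theorem lec {V : Type} (G : SimpleGraph V) (d : ℕ) (hG : EL G d)
    (hd : ¬ G.lineGraph.Colorable (d - 1)) (k : ℕ) : LECCk G k := by
  constructor
  · intro hk L hL
    apply hG
    intro e
    refine le_trans ?_ (hL e)
    by_contra hlt
    exact hd (hk.mono (by omega))
  · intro hL
    obtain ⟨f, hf1, hf2⟩ := hL (fun _ => range k) (fun e => by simp)
    exact ⟨SimpleGraph.Coloring.mk (fun e => (⟨f e, by simpa using hf1 e⟩ : Fin k))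
      (fun {e e'} hadj he => hf2 e e' hadj (congrArg Fin.val he))⟩

/-- a vertex of degree at least `d` needs `d` colours -/
theorem deg {V : Type} [Fintype V] (G : SimpleGraph V) [DecidableRel G.Adj] (d : ℕ) (hd : 1 ≤ d) (v : V)
    (hv : d ≤ G.degree v) : ¬ G.lineGraph.Colorable (d - 1) := by
  rintro ⟨col⟩
  let g : G.neighborSet v → G.edgeSet := fun w => ⟨s(v, w), w.2⟩
  have hinj : Function.Injective (fun w => col (g w)) := by
    intro w w' hww
    by_contra hne
    have hadj : G.lineGraph.Adj (g w) (g w') := by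
      rw [SimpleGraph.lineGraph_adj_iff_exists]
      refine ⟨fun he => hne ?_, v, Sym2.mem_mk_left _ _, Sym2.mem_mk_left _ _⟩
      have h1 : s(v, (w : V)) = s(v, (w' : V)) := congrArg Subtype.val he
      exact Subtype.ext (Sym2.congr_right.1 h1)
    exact col.valid hadj hww
  have h1 := Fintype.card_le_of_injective _ hinj
  rw [Fintype.card_fin, SimpleGraph.card_neighborSet_eq_degree] at h1
  omega

/-- joined circulants -/
def S_GBE : Prop := ∀ (p k : ℕ) [Fact p.Prime], p ≠ 2 → ∀ (hk : k ≠ 0) (S R T : Finset (ZMod (p ^ k))),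
  (∀ x ∈ S, -x ∈ S) → (∀ x ∈ R, -x ∈ R) → S.card + 1 = p → R.card + 1 = p →
  (∀ x ∈ S, ZMod.castHom (dvd_pow_self p hk) (ZMod p) x ≠ 0) →
  (∀ x ∈ R, ZMod.castHom (dvd_pow_self p hk) (ZMod p) x ≠ 0) →
  T.Nonempty → T.card < p → EL (BC (p ^ k) S R T) (p - 1 + T.card)

theorem gb (hG : S_GRE) (hB : S_BI) (hH : S_HALF) (hE : S_EDGE) : S_GBE := by
  intro p k hp hp2 hk S R T hS hR hSc hRc hS0 hR0 hT hTp
  have hpp : p.Prime := hp.out
  have hn0 : NeZero (p ^ k) := ⟨pow_ne_zero _ hpp.ne_zero⟩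
  have hodd : Odd p := hpp.odd_of_ne_two hp2
  have hoddn : Odd (p ^ k) := hodd.pow
  obtain ⟨m, hm⟩ := hodd
  have h0S : (0 : ZMod (p ^ k)) ∉ S := fun h => hS0 0 h (map_zero _)
  have h0R : (0 : ZMod (p ^ k)) ∉ R := fun h => hR0 0 h (map_zero _)
  obtain ⟨σ0, hσ0⟩ := hH (p ^ k) m hoddn S hS h0S (by omega)
  obtain ⟨σ1, hσ1⟩ := hH (p ^ k) m hoddn R hR h0R (by omega)
  set σ : Bool → Fin m → ZMod (p ^ k) := fun b => cond b σ1 σ0 with hσ
  obtain ⟨ψ, h1, h2, h3⟩ := hE (p ^ k) m hoddn S R T σ h0S h0R hσ0 hσ1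
  have hTc : 0 < T.card := hT.card_pos
  have ρ : DD (Fin m) T ≃ CC p (Fin (T.card - 1)) := Fintype.equivOfCardEq (by
    simp only [Fintype.card_sum, Fintype.card_prod, Fintype.card_bool, Fintype.card_fin,
      ZMod.card, Fintype.card_coe]
    omega)
  have ρ' : Option (Fin m × Bool) ≃ ZMod p := Fintype.equivOfCardEq (by
    simp only [Fintype.card_option, Fintype.card_prod, Fintype.card_bool, Fintype.card_fin,
      ZMod.card]
    omega)
  have hne : ∀ b i, ZMod.castHom (dvd_pow_self p hk) (ZMod p) (σ b i) ≠ 0 := by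
    intro b i
    cases b
    · have h4 := hσ0.mapsTo (Set.mem_univ (i, true))
      simp only [if_true] at h4
      exact hS0 _ h4
    · have h4 := hσ1.mapsTo (Set.mem_univ (i, true))
      simp only [if_true] at h4
      exact hR0 _ h4
  have hNN := hB p k hp2 hk (Fin m) T (Fin (T.card - 1)) ρ ρ' σ (fun t : T => (t : ZMod (p ^ k)))
    hne (by rw [Fintype.card_coe]; exact hTp)
  have hcD : Fintype.card (DD (Fin m) T) = p - 1 + T.card := by
    simp only [Fintype.card_sum, Fintype.card_prod, Fintype.card_bool, Fintype.card_fin,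
      ZMod.card, Fintype.card_coe]
    omega
  rw [← hcD]
  exact hG (ZMod (p ^ k) × Bool) (EE (Fin m) T (p ^ k)) (DD (Fin m) T)
    (CC p (Fin (T.card - 1))) ρ _ (BC (p ^ k) S R T) ψ h1 h2 h3 hNN

/-- complete graphs -/
def S_GKE : Prop := ∀ (p : ℕ), p.Prime → p ≠ 2 → ∀ (V : Type) [Fintype V], Fintype.card V = 2 * p →
  EL (⊤ : SimpleGraph V) (2 * p - 1)

open Pool.Agent.W493.LE.GK in
theorem gk (hG : S_GRE) (hK : S_KK) (hH : S_HALF) (hE : S_EDGE) : S_GKE := by
  intro p hpp hp2 V _ hV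
  haveI hp : Fact p.Prime := ⟨hpp⟩
  haveI hn0 : NeZero p := ⟨hpp.ne_zero⟩
  have hodd : Odd p := hpp.odd_of_ne_two hp2
  have hodd' := hodd
  obtain ⟨m, hm⟩ := hodd'
  set S : Finset (ZMod p) := univ.erase 0 with hS
  have hSc : S.card = 2 * m := by
    rw [hS, Finset.card_erase_of_mem (Finset.mem_univ _), Finset.card_univ, ZMod.card]
    omega
  have h0S : (0 : ZMod p) ∉ S := by simp [hS]
  obtain ⟨σ, hσ⟩ := hH p m hodd S (by intro x hx; simpa [hS] using hx) h0S hSc
  have hσ' : Half {z : ZMod p | z ≠ 0} σ := by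
    have : ((S : Finset (ZMod p)) : Set (ZMod p)) = {z : ZMod p | z ≠ 0} := by
      ext z
      simp [hS]
    rwa [this] at hσ
  obtain ⟨ψ, h1, h2, h3⟩ := hE p m hodd S S (univ : Finset (ZMod p)) (fun _ => σ) h0S h0S hσ hσ
  -- the type of the cross classes
  let τ : ZMod p ≃ (univ : Finset (ZMod p)) :=
    (Equiv.subtypeUnivEquiv fun x => Finset.mem_univ x).symm
  have hτ : ∀ t : ZMod p, ((τ t : (univ : Finset (ZMod p))) : ZMod p) = t := fun t => rfl
  have hinc : ∀ (u : ZMod p × Bool) (i : DD (Fin m) (ZMod p)),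
      eE p τ (inc (fun _ : Bool => σ) (fun t : ZMod p => t) u i) =
        inc (fun _ : Bool => σ) (fun t : (univ : Finset (ZMod p)) => (t : ZMod p)) u (dE τ i) :=
    fun u i => inc_change τ (fun _ : Bool => σ)
      (fun t : (univ : Finset (ZMod p)) => (t : ZMod p)) u i
  have ρ : DD (Fin m) (ZMod p) ≃ CC p (Fin (p - 1)) := Fintype.equivOfCardEq (by
    simp only [Fintype.card_sum, Fintype.card_prod, Fintype.card_bool, Fintype.card_fin,
      ZMod.card]
    omega)
  have hNN := hK p hp2 (Fin m) (Fin (p - 1)) σ hσ' ρ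
  have hL := hG (ZMod p × Bool) (EE (Fin m) (ZMod p) p) (DD (Fin m) (ZMod p))
    (CC p (Fin (p - 1))) ρ (inc (fun _ => σ) (fun t : ZMod p => t))
    (BC p S S (univ : Finset (ZMod p))) ((eE p τ).trans ψ) ?_ ?_ ?_ hNN
  · have hBC : BC p S S (univ : Finset (ZMod p)) = ⊤ := by
      ext u v
      unfold BC
      rw [SimpleGraph.fromRel_adj, SimpleGraph.top_adj]
      constructor
      · exact fun h => h.1
      · intro h
        refine ⟨h, ?_⟩
        obtain ⟨x, b⟩ := u
        obtain ⟨y, b'⟩ := v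
        have key : b = b' → y - x ∈ S := by
          intro hb
          subst hb
          rw [hS, Finset.mem_erase]
          refine ⟨?_, Finset.mem_univ _⟩
          rw [sub_ne_zero]
          rintro rfl
          exact h rfl
        cases b <;> cases b'
        · exact Or.inl (Or.inl ⟨rfl, rfl, key rfl⟩)
        · exact Or.inl (Or.inr (Or.inr ⟨rfl, rfl, Finset.mem_univ _⟩))
        · exact Or.inr (Or.inr (Or.inr ⟨rfl, rfl, Finset.mem_univ _⟩))
        · exact Or.inl (Or.inr (Or.inl ⟨rfl, rfl, key rfl⟩))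
    rw [hBC] at hL
    have e : ZMod p × Bool ≃ V := Fintype.equivOfCardEq (by
      rw [Fintype.card_prod, ZMod.card, Fintype.card_bool, hV, mul_comm])
    have hcD : Fintype.card (DD (Fin m) (ZMod p)) = 2 * p - 1 := by
      simp only [Fintype.card_sum, Fintype.card_prod, Fintype.card_bool, Fintype.card_fin,
        ZMod.card]
      omega
    rw [hcD] at hL
    exact mono _ _ e.symm e.symm.injective (by
      intro u v h
      rw [SimpleGraph.top_adj] at h ⊢
      exact fun h' => h (e.symm.injective h')) _ hL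
  · intro v i
    rw [Equiv.trans_apply, hinc]
    exact h1 v _
  · intro v e he
    rw [Equiv.trans_apply] at he
    obtain ⟨i, hi⟩ := h2 v _ he
    refine ⟨(dE τ).symm i, ?_⟩
    apply (eE p τ).injective
    rw [hinc, Equiv.apply_symm_apply, hi]
  · intro v i j hij
    have h4 := congrArg (eE p τ) hij
    rw [hinc, hinc] at h4
    exact (dE τ).injective (h3 v h4)


theorem sGRE : S_GRE := gre (Pool.Agent.W440.LE.Crit.main Pool.Agent.W346.LE.CF.main)
theorem sGBE : S_GBE := gb sGRE sBI Pool.Agent.W337.LE.half Pool.Agent.W337.LE.main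
theorem sGKE : S_GKE := gk sGRE sKK Pool.Agent.W337.LE.half Pool.Agent.W337.LE.main

end Pool.Agent.W426.LE.EL
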