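import Pool.Agent.W346.LE.LECF
import Pool.Agent.W440.LE.LECrit
import Pool.Agent.W346.LE.LEKEY
import Pool.Agent.W970.LE.LEYA
import Pool.Agent.W154.LE.LEYB
import Pool.Agent.W230.LE.TW1
import Pool.Agent.W230.LE.TW2
import Pool.Agent.W205.LE.LETW
import Pool.Agent.W82.LE.BI
import Pool.Agent.W978.LEFree
import Pool.Agent.W575.LE.LEKM
import Pool.Agent.W557.LELink
import Pool.Agent.W493.LE.KK
import Pool.Agent.W15.LE.LEGR
import Pool.Agent.W337.LE.LEEdge
import Pool.Agent.W493.LE.GK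
set_option autoImplicit false
namespace Pool.Agent.W426.LE

theorem sGR : S_GR := Pool.Agent.W15.LEGR.main (Pool.Agent.W440.LE.Crit.main Pool.Agent.W346.LE.CF.main)
theorem sTW : S_TW := Pool.Agent.W205.LE.TW.main Pool.Agent.W230.LE.TW1.main Pool.Agent.W230.LE.TW2.main
theorem sBI : S_BI := Pool.Agent.W82.LEBI.main Pool.Agent.W346.LE.KEY.main Pool.Agent.W970.LE.YA.main
  Pool.Agent.W154.LEYB.main sTW Pool.Agent.W205.LE.TW.main0
theorem sKM : S_KM := Pool.Agent.W575.LEKM.main Pool.Agent.W346.LE.KEY.main Pool.Agent.W978.LEFree.main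
  Pool.Agent.W575.LEKM.scale
theorem sKK : S_KK := Pool.Agent.W493.LE.KK.main Pool.Agent.W970.LE.YA.main Pool.Agent.W154.LEYB.main sTW
  Pool.Agent.W557.LELink.main sKM
theorem sGB : S_GB := Pool.Agent.W493.LE.GK.gb sGR sBI Pool.Agent.W337.LE.half Pool.Agent.W337.LE.main
theorem sGK : S_GK := Pool.Agent.W493.LE.GK.gk sGR sKK Pool.Agent.W337.LE.half Pool.Agent.W337.LE.main

end Pool.Agent.W426.LE
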