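import Pool.Agent.W426.LE.Stm
set_option autoImplicit false
set_option linter.all false

/-! Basic facts about the relative sign `sg`. -/

namespace Pool.Agent.W426.LE

open Finset
open scoped Classical

variable {D C : Type} [Fintype D]

theorem sg_of_bij (ρ : D ≃ C) (f : D → C) (h : Function.Bijective f) :
    sg ρ f = ((Equiv.Perm.sign ((Equiv.ofBijective f h).trans ρ.symm) : ℤˣ) : ℤ) := by
  unfold sg; rw [dif_pos h]

theorem sg_of_not (ρ : D ≃ C) (f : D → C) (h : ¬ Function.Bijective f) : sg ρ f = 0 := by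
  unfold sg; rw [dif_neg h]

theorem sg_of_not_inj (ρ : D ≃ C) (f : D → C) (h : ¬ Function.Injective f) : sg ρ f = 0 :=
  sg_of_not ρ f (fun h' => h h'.1)

theorem sg_ne_zero_iff (ρ : D ≃ C) (f : D → C) : sg ρ f ≠ 0 ↔ Function.Bijective f := by
  constructor
  · intro h; by_contra h'; exact h (sg_of_not ρ f h')
  · intro h; rw [sg_of_bij ρ f h]; exact Units.ne_zero _

/-- for an equivalence -/
theorem sg_equiv (ρ : D ≃ C) (e : D ≃ C) :
    sg ρ (e : D → C) = ((Equiv.Perm.sign (e.trans ρ.symm) : ℤˣ) : ℤ) := by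
  rw [sg_of_bij ρ e e.bijective]
  congr 3
  ext i; rfl

theorem exists_equiv (f : D → C) (h : Function.Bijective f) : ∃ e : D ≃ C, (e : D → C) = f :=
  ⟨Equiv.ofBijective f h, rfl⟩

theorem sg_sq (ρ : D ≃ C) (f : D → C) (h : Function.Bijective f) : sg ρ f * sg ρ f = 1 := by
  obtain ⟨e, rfl⟩ := exists_equiv f h
  rw [sg_equiv]
  rcases Int.units_eq_one_or (Equiv.Perm.sign (e.trans ρ.symm)) with h | h <;> rw [h] <;> norm_num

theorem sg_eq (ρ : D ≃ C) (f : D → C) (h : Function.Bijective f) : sg ρ f = 1 ∨ sg ρ f = -1 := by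
  obtain ⟨e, rfl⟩ := exists_equiv f h
  rw [sg_equiv]
  rcases Int.units_eq_one_or (Equiv.Perm.sign (e.trans ρ.symm)) with h | h <;> rw [h] <;> norm_num

/-- precomposition with a permutation -/
theorem sg_comp_perm (ρ : D ≃ C) (f : D → C) (π : Equiv.Perm D) :
    sg ρ (fun i => f (π i)) = ((Equiv.Perm.sign π : ℤˣ) : ℤ) * sg ρ f := by
  by_cases h : Function.Bijective f
  · obtain ⟨e, rfl⟩ := exists_equiv f h
    have : (fun i => e (π i)) = ((π.trans e : D ≃ C) : D → C) := rfl
    rw [this, sg_equiv, sg_equiv]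
    have h2 : (π.trans e).trans ρ.symm = (e.trans ρ.symm : Equiv.Perm D) * π := by
      ext i; simp
    rw [h2, Equiv.Perm.sign_mul, mul_comm, Units.val_mul]
  · have h' : ¬ Function.Bijective (fun i => f (π i)) := by
      intro h2; apply h
      have := (h2.comp π.symm.bijective)
      have h3 : ((fun i => f (π i)) ∘ π.symm) = f := by ext i; simp
      rwa [h3] at this
    rw [sg_of_not ρ f h, sg_of_not ρ _ h', mul_zero]

/-- precomposition with an equivalence of index types -/
theorem sg_comp_equiv {D' : Type} [Fintype D'] (ρ : D ≃ C) (f : D → C) (l : D' ≃ D) :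
    sg (l.trans ρ) (fun i => f (l i)) = sg ρ f := by
  by_cases h : Function.Bijective f
  · obtain ⟨e, rfl⟩ := exists_equiv f h
    have : (fun i => e (l i)) = ((l.trans e : D' ≃ C) : D' → C) := rfl
    rw [this, sg_equiv, sg_equiv]
    have h2 : (l.trans e).trans (l.trans ρ).symm = (l.trans (e.trans ρ.symm : Equiv.Perm D)).trans l.symm := by
      ext i; simp
    rw [h2]
    have := Equiv.Perm.sign_symm_trans_trans (e.trans ρ.symm : Equiv.Perm D) l.symm
    simp only [Equiv.symm_symm] at this
    rw [← this]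
  · have h' : ¬ Function.Bijective (fun i => f (l i)) := by
      intro h2; apply h
      have := (h2.comp l.symm.bijective)
      have h3 : ((fun i => f (l i)) ∘ l.symm) = f := by ext i; simp
      rwa [h3] at this
    rw [sg_of_not ρ f h, sg_of_not _ _ h']

/-- postcomposition with a permutation of the colours -/
theorem sg_perm_comp [Fintype C] (ρ : D ≃ C) (f : D → C) (κ : Equiv.Perm C) :
    sg ρ (fun i => κ (f i)) = ((Equiv.Perm.sign κ : ℤˣ) : ℤ) * sg ρ f := by
  by_cases h : Function.Bijective f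
  · obtain ⟨e, rfl⟩ := exists_equiv f h
    have : (fun i => κ (e i)) = ((e.trans κ : D ≃ C) : D → C) := rfl
    rw [this, sg_equiv, sg_equiv]
    have h2 : (e.trans κ).trans ρ.symm =
        ((ρ.trans κ).trans ρ.symm : Equiv.Perm D) * (e.trans ρ.symm : Equiv.Perm D) := by
      ext i; simp
    have h3 := Equiv.Perm.sign_symm_trans_trans κ ρ.symm
    simp only [Equiv.symm_symm] at h3
    rw [h2, Equiv.Perm.sign_mul, Units.val_mul, ← h3]
  · have h' : ¬ Function.Bijective (fun i => κ (f i)) := by
      intro h2; apply h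
      have := (κ.symm.bijective.comp h2)
      have h3 : (κ.symm ∘ (fun i => κ (f i))) = f := by ext i; simp
      rwa [h3] at this
    rw [sg_of_not ρ f h, sg_of_not _ _ h', mul_zero]

/-- change of the reference -/
theorem sg_change (ρ ρ' : D ≃ C) (f : D → C) : sg ρ f = sg ρ (ρ' : D → C) * sg ρ' f := by
  by_cases h : Function.Bijective f
  · obtain ⟨e, rfl⟩ := exists_equiv f h
    rw [sg_equiv, sg_equiv, sg_equiv]
    have h2 : e.trans ρ.symm = (ρ'.trans ρ.symm : Equiv.Perm D) * (e.trans ρ'.symm : Equiv.Perm D) := by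
      ext i; simp
    rw [h2, Equiv.Perm.sign_mul, Units.val_mul]
  · rw [sg_of_not ρ f h, sg_of_not ρ' f h, mul_zero]

/-- a permutation with an odd power equal to one is even -/
theorem sign_of_pow {α : Type} [Fintype α] [DecidableEq α] (κ : Equiv.Perm α) (n : ℕ) (hn : Odd n) (h : κ ^ n = 1) :
    Equiv.Perm.sign κ = 1 := by
  have h2 : (Equiv.Perm.sign κ) ^ n = 1 := by rw [← map_pow, h, map_one]
  rcases Int.units_eq_one_or (Equiv.Perm.sign κ) with h3 | h3
  · exact h3
  · rw [h3, hn.neg_one_pow] at h2; exact absurd h2 (by decide)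

/-- the colour shift as a permutation -/
def shP {p : ℕ} {F : Type} (j : ZMod p) : Equiv.Perm (CC p F) where
  toFun := sh j
  invFun := sh (-j)
  left_inv := by intro c; rcases c with z | f <;> simp [sh]
  right_inv := by intro c; rcases c with z | f <;> simp [sh]

@[simp] theorem sh_zero {p : ℕ} {F : Type} (c : CC p F) : sh (0 : ZMod p) c = c := by
  rcases c with z | f <;> simp [sh]

theorem sh_add {p : ℕ} {F : Type} (i j : ZMod p) (c : CC p F) : sh i (sh j c) = sh (i + j) c := by
  rcases c with z | f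
  · simp [sh]; ring
  · simp [sh]

theorem shP_apply {p : ℕ} {F : Type} (j : ZMod p) (c : CC p F) : shP j c = sh j c := rfl

theorem shP_pow {p : ℕ} {F : Type} (j : ZMod p) (n : ℕ) : (shP j : Equiv.Perm (CC p F)) ^ n = shP ((n : ZMod p) * j) := by
  induction n with
  | zero => ext c; simp [shP_apply]
  | succ n ih =>
    ext c
    rw [pow_succ', ih]
    simp only [Equiv.Perm.mul_apply, shP_apply, sh_add]
    congr 1; push_cast; ring

/-- the colour shift is even -/
theorem sg_sh {p : ℕ} [Fact p.Prime] (hp : p ≠ 2) {F : Type} [Fintype F] (ρ : D ≃ CC p F) (f : D → CC p F)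
    (j : ZMod p) : sg ρ (fun i => sh j (f i)) = sg ρ f := by
  have h := sg_perm_comp ρ f (shP j)
  have h2 : ∀ [DecidableEq (CC p F)] [Fintype (CC p F)],
      Equiv.Perm.sign (shP j : Equiv.Perm (CC p F)) = 1 := by
    intro _ _
    apply sign_of_pow _ p ((Fact.out : p.Prime).odd_of_ne_two hp)
    rw [shP_pow]; ext c; simp [shP_apply]
  have h5 : (fun i => sh j (f i)) = fun i => (shP j : Equiv.Perm (CC p F)) (f i) := rfl
  rw [h5, h]
  have h6 := congrArg (fun u : ℤˣ => (u : ℤ)) (@h2 (fun a b => Classical.propDecidable (a = b)) _)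
  simp only [Units.val_one] at h6
  first
  | rw [h6, one_mul]
  | (convert one_mul _)

end Pool.Agent.W426.LE
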