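import Mathlib
set_option autoImplicit false
set_option linter.all false

/-! Project LE: the list edge colouring conjecture for the complete graphs `K_{2p}` (`p` an odd prime) and for
joined circulant graphs, via signed counts of one-factorisations modulo powers of `p`. -/

namespace Pool.Agent.W426.LE

open Finset
open scoped Classical

/-- The sign of a map `f : D → C` between finite types of the same size, relative to a reference
bijection `ρ`; it is `0` if `f` is not bijective. -/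
noncomputable def sg {D C : Type} [Fintype D] (ρ : D ≃ C) (f : D → C) : ℤ :=
  if h : Function.Bijective f then
    ((Equiv.Perm.sign ((Equiv.ofBijective f h).trans ρ.symm) : ℤˣ) : ℤ) else 0

/-- The signed number of colourings `x : E → C` such that all colours occur exactly once at every vertex.
`inc v i` is the `i`-th edge at the vertex `v`. -/
noncomputable def NN {V E D C : Type} [Fintype V] [Fintype E] [Fintype D] [Fintype C]
    (ρ : D ≃ C) (inc : V → D → E) : ℤ :=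
  ∑ x : E → C, ∏ v, sg ρ (fun i => x (inc v i))

/-- the edges of `G` can be coloured from all lists of size at least `k` iff `k` colours suffice -/
def LECCk {V : Type} (G : SimpleGraph V) (k : ℕ) : Prop :=
  G.lineGraph.Colorable k ↔
    ∀ L : G.edgeSet → Finset ℕ, (∀ e, k ≤ (L e).card) →
      ∃ f : G.edgeSet → ℕ, (∀ e, f e ∈ L e) ∧
        ∀ e e', G.lineGraph.Adj e e' → f e ≠ f e'

/-! ### Part 1: the criterion -/

/-- coefficient formula (quantitative Nullstellensatz on the grid `{0,…,d-1}^E`) -/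
def S_CF : Prop := ∀ (E : Type) [Fintype E] (d : ℕ), 0 < d → ∀ f : MvPolynomial E ℚ,
  f.totalDegree ≤ Fintype.card E * (d - 1) →
  f.coeff (Finsupp.equivFunOnFinite.symm (fun _ => d - 1)) =
    ∑ x : E → Fin d, MvPolynomial.eval (fun e => ((x e : ℕ) : ℚ)) f *
      ∏ e, (∏ c ∈ univ.erase (x e), (((x e : ℕ) : ℚ) - ((c : ℕ) : ℚ)))⁻¹

/-- if the signed number is not zero the structure can be coloured from all lists of size `card D` -/
def S_CRIT : Prop := ∀ (V E D C : Type) [Fintype V] [Fintype E] [Fintype D] [Fintype C]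
  (ρ : D ≃ C) (inc : V → D → E),
  (∀ e, Fintype.card {q : V × D // inc q.1 q.2 = e} = 2) →
  NN ρ inc ≠ 0 →
  ∀ L : E → Finset ℕ, (∀ e, Fintype.card D ≤ (L e).card) →
    ∃ f : E → ℕ, (∀ e, f e ∈ L e) ∧ ∀ v, Function.Injective (fun i => f (inc v i))

/-- graph version -/
def S_GR : Prop := ∀ (V E D C : Type) [Fintype V] [Nonempty V] [Fintype E] [Fintype D] [Fintype C]
  (ρ : D ≃ C) (inc : V → D → E) (G : SimpleGraph V) (ψ : E ≃ G.edgeSet),
  (∀ v i, v ∈ (ψ (inc v i) : Sym2 V)) →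
  (∀ v e, v ∈ (ψ e : Sym2 V) → ∃ i, inc v i = e) →
  (∀ v, Function.Injective (inc v)) →
  NN ρ inc ≠ 0 → ∀ k, LECCk G k

/-! ### Part 2: counting modulo `p^(a+1)` -/

def S_KEY : Prop := ∀ (X A : Type) [Fintype X] [CommGroup A] [Fintype A] [MulAction A X] (p a : ℕ),
  p.Prime → Fintype.card A = p ^ a → (∀ (α : A) (x : X), α • x = x → α = 1) →
  ∀ (g : Equiv.Perm X), (∀ (α : A) (x : X), g (α • x) = α • g x) → (∃ k : ℕ, g ^ (p ^ k) = 1) →
  ∀ (w : X → ℤ), (∀ (α : A) (x : X), w (α • x) = w x) → (∀ x, w (g x) = w x) →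
  (p : ℤ) ^ (a + 1) ∣ (∑ x, w x) - ∑ α : A, ∑ x ∈ univ.filter (fun x => g x = α • x), w x

/-! ### Part 3: prescribed differences modulo `p` -/

/-- the points `0`, `a i`, `a i - g i` -/
def ff {p : ℕ} {I : Type} (g a : I → ZMod p) : Option (I × Bool) → ZMod p
  | none => 0
  | some (i, true) => a i
  | some (i, false) => a i - g i

/-- signed number of ways to partition the nonzero residues into pairs with differences `g i` -/
noncomputable def YY {p : ℕ} [NeZero p] {I : Type} [Fintype I] (ρ : Option (I × Bool) ≃ ZMod p)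
    (g : I → ZMod p) : ℤ := ∑ a : I → ZMod p, sg ρ (ff g a)

def S_YA : Prop := ∀ (p : ℕ) [Fact p.Prime], p ≠ 2 → ∀ (I : Type) [Fintype I]
  (ρ : Option (I × Bool) ≃ ZMod p) (g : I → ZMod p),
  ((YY ρ g : ℤ) : ZMod p) = ((YY ρ (fun _ => 1) : ℤ) : ZMod p) * ∏ i, g i

def S_YB : Prop := ∀ (p : ℕ) [Fact p.Prime], p ≠ 2 → ∀ (I : Type) [Fintype I]
  (ρ : Option (I × Bool) ≃ ZMod p), ((YY ρ (fun _ => 1) : ℤ) : ZMod p) ≠ 0

/-! ### Part 4: two circulants joined -/

/-- edges: `inl (b,i,y)` joins `(y,b)` and `(y + s b i, b)`; `inr (τ,y)` joins `(y,false)` and `(y + v τ, true)` -/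
abbrev EE (I T : Type) (n : ℕ) := (Bool × I × ZMod n) ⊕ (T × ZMod n)
abbrev DD (I T : Type) := (I × Bool) ⊕ T
abbrev CC (p : ℕ) (F : Type) := ZMod p ⊕ F

def inc {n : ℕ} {I T : Type} (s : Bool → I → ZMod n) (v : T → ZMod n) :
    ZMod n × Bool → DD I T → EE I T n
  | (y, b), .inl (i, true) => .inl (b, i, y)
  | (y, b), .inl (i, false) => .inl (b, i, y - s b i)
  | (y, false), .inr τ => .inr (τ, y)
  | (y, true), .inr τ => .inr (τ, y - v τ)

/-- rotation of the edges -/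
def rot {n : ℕ} {I T : Type} : EE I T n → EE I T n
  | .inl (b, i, y) => .inl (b, i, y + 1)
  | .inr (τ, y) => .inr (τ, y + 1)

/-- shift of the colours -/
def sh {p : ℕ} {F : Type} (j : ZMod p) : CC p F → CC p F
  | .inl z => .inl (z + j)
  | .inr f => .inr f

/-- signed number of the colourings with `x (rot e) = sh j (x e)` -/
noncomputable def ZZ {p n : ℕ} [NeZero p] [NeZero n] {I T F : Type} [Fintype I] [Fintype T] [Fintype F]
    (ρ : DD I T ≃ CC p F) (s : Bool → I → ZMod n) (v : T → ZMod n) (j : ZMod p) : ℤ :=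
  ∑ x ∈ univ.filter (fun x : EE I T n → CC p F => ∀ e, x (rot e) = sh j (x e)),
    ∏ u, sg ρ (fun i => x (inc s v u i))

/-- product of signs of a twisted colouring -/
def S_TW1 : Prop := ∀ (p n : ℕ) [Fact p.Prime] [NeZero n], p ≠ 2 → Odd n →
  ∀ (I T F : Type) [Fintype I] [Fintype T] [Fintype F] (ρ : DD I T ≃ CC p F)
  (s : Bool → I → ZMod n) (v : T → ZMod n) (j : ZMod p) (x : EE I T n → CC p F),
  (∀ e, x (rot e) = sh j (x e)) →
  ∏ u, sg ρ (fun i => x (inc s v u i)) =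
    sg ρ (fun i => x (inc s v (0, false) i)) * sg ρ (fun i => x (inc s v (0, true) i))

/-- normal form of a twisted colouring at a vertex -/
def arr {p : ℕ} {I T F : Type} (g : I → ZMod p) (c : ZMod p) (ψ : T → Option F) (a : I → ZMod p) :
    DD I T → CC p F
  | .inl (i, true) => .inl (c + a i)
  | .inl (i, false) => .inl (c + a i - g i)
  | .inr τ => match ψ τ with
    | none => .inl c
    | some f => .inr f

def S_TW2 : Prop := ∀ (p : ℕ) [Fact p.Prime], p ≠ 2 →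
  ∀ (I T F : Type) [Fintype I] [Fintype T] [Fintype F] (ρ : DD I T ≃ CC p F)
  (ρ' : Option (I × Bool) ≃ ZMod p), ∃ ε : (T ≃ Option F) → ℤ, (∀ ψ, ε ψ * ε ψ = 1) ∧
  ∀ (ψ : T ≃ Option F) (g : I → ZMod p) (c : ZMod p) (a : I → ZMod p),
    sg ρ (arr g c ψ a) = ε ψ * sg ρ' (ff g a)

/-- the signed number of twisted colourings -/
def S_TW : Prop := ∀ (p n : ℕ) [Fact p.Prime] [NeZero n], p ≠ 2 → Odd n → ∀ (h : p ∣ n)
  (I T F : Type) [Fintype I] [Fintype T] [Fintype F] (ρ : DD I T ≃ CC p F)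
  (ρ' : Option (I × Bool) ≃ ZMod p)
  (s : Bool → I → ZMod n) (v : T → ZMod n) (j : ZMod p), j ≠ 0 →
  ZZ ρ s v j = p * (Fintype.card T).factorial *
    (YY ρ' (fun i => j * ZMod.castHom h (ZMod p) (s false i)) *
     YY ρ' (fun i => j * ZMod.castHom h (ZMod p) (s true i)))

def S_TW0 : Prop := ∀ (p n : ℕ) [Fact p.Prime] [NeZero n], p ≠ 2 →
  ∀ (I T F : Type) [Fintype I] [Nonempty I] [Fintype T] [Fintype F] (ρ : DD I T ≃ CC p F)
  (s : Bool → I → ZMod n) (v : T → ZMod n), ZZ ρ s v (0 : ZMod p) = 0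

/-- joined circulants, at most `p - 1` cross classes -/
def S_BI : Prop := ∀ (p k : ℕ) [Fact p.Prime], p ≠ 2 → ∀ (hk : k ≠ 0)
  (I T F : Type) [Fintype I] [Fintype T] [Fintype F] (ρ : DD I T ≃ CC p F)
  (ρ' : Option (I × Bool) ≃ ZMod p)
  (s : Bool → I → ZMod (p ^ k)) (v : T → ZMod (p ^ k)),
  (∀ b i, ZMod.castHom (dvd_pow_self p hk) (ZMod p) (s b i) ≠ 0) → Fintype.card T < p →
  NN ρ (inc s v) ≠ 0

/-! ### Part 5: complete graphs as symmetric matrices -/

def SymM {V O : Type} (M : V → V → Option O) : Prop :=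
  (∀ v, M v v = none) ∧ ∀ u v, M u v = M v u

noncomputable def NM {V O : Type} [Fintype V] [Fintype O] (ρ : V ≃ Option O) : ℤ :=
  ∑ M ∈ univ.filter (fun M : V → V → Option O => SymM M), ∏ v, sg ρ (M v)

/-- rotate the first half by `a` and the second half by `b` -/
def tw {p : ℕ} (a b : ZMod p) : ZMod p × Bool → ZMod p × Bool
  | (y, false) => (y + a, false)
  | (y, true) => (y + b, true)

noncomputable def FIX {p : ℕ} [NeZero p] {F : Type} [Fintype F] (ρ : ZMod p × Bool ≃ Option (CC p F))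
    (a b j : ZMod p) : ℤ :=
  ∑ M ∈ univ.filter (fun M : ZMod p × Bool → ZMod p × Bool → Option (CC p F) =>
      SymM M ∧ ∀ u v, M (tw a b u) (tw a b v) = Option.map (sh j) (M u v)),
    ∏ v, sg ρ (M v)

/-- no proper symmetric matrix is fixed by a group element with a zero component -/
def S_FREE : Prop := ∀ (p : ℕ) [Fact p.Prime], p ≠ 2 → ∀ (F : Type) [Fintype F],
  Fintype.card F + 1 = p → ∀ (M : ZMod p × Bool → ZMod p × Bool → Option (CC p F)) (a b j : ZMod p),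
  SymM M → (∀ u v, M (tw a b u) (tw a b v) = Option.map (sh j) (M u v)) →
  (∀ v, Function.Bijective (M v)) → (a = 0 ∨ b = 0 ∨ j = 0) → a = 0 ∧ b = 0 ∧ j = 0

def S_SCALE : Prop := ∀ (p : ℕ) [Fact p.Prime], p ≠ 2 → ∀ (F : Type) [Fintype F]
  (ρ : ZMod p × Bool ≃ Option (CC p F)) (a b j : ZMod p), a ≠ 0 → b ≠ 0 →
  FIX ρ a b j = FIX ρ 1 1 j

def S_KM : Prop := ∀ (p : ℕ) [Fact p.Prime], p ≠ 2 → ∀ (F : Type) [Fintype F],
  Fintype.card F + 1 = p → ∀ (ρ : ZMod p × Bool ≃ Option (CC p F)),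
  (p : ℤ) ^ 3 ∣ NM ρ - (p - 1) * ∑ j ∈ univ.filter (fun j : ZMod p => j ≠ 0), FIX ρ 1 1 j

/-- `σ` is a half system: every nonzero residue is `σ i` or `- σ i` in exactly one way -/
def Half {n : ℕ} {I : Type} (S : Set (ZMod n)) (σ : I → ZMod n) : Prop :=
  Set.BijOn (fun q : I × Bool => if q.2 = true then σ q.1 else - σ q.1) Set.univ S

/-- comparison of the two models of `K_{2p}` -/
def S_LINK : Prop := ∀ (p : ℕ) [Fact p.Prime], p ≠ 2 →
  ∀ (I F : Type) [Fintype I] [Fintype F] (σ : I → ZMod p), Half {z | z ≠ 0} σ →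
  ∀ (ρ : DD I (ZMod p) ≃ CC p F) (ρ' : ZMod p × Bool ≃ Option (CC p F)),
  ∃ η : ℤ, η * η = 1 ∧ NM ρ' = η * NN ρ (inc (fun _ => σ) (fun t : ZMod p => t)) ∧
    ∀ j : ZMod p, FIX ρ' 1 1 j = η * ZZ ρ (fun _ => σ) (fun t : ZMod p => t) j

/-- the signed number of `K_{2p}` is not zero -/
def S_KK : Prop := ∀ (p : ℕ) [Fact p.Prime], p ≠ 2 →
  ∀ (I F : Type) [Fintype I] [Fintype F] (σ : I → ZMod p), Half {z | z ≠ 0} σ →
  ∀ (ρ : DD I (ZMod p) ≃ CC p F), NN ρ (inc (fun _ => σ) (fun t : ZMod p => t)) ≠ 0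

/-! ### Part 6: graphs -/

/-- existence of half systems -/
def S_HALF : Prop := ∀ (n m : ℕ), Odd n → ∀ S : Finset (ZMod n), (∀ x ∈ S, -x ∈ S) → (0 : ZMod n) ∉ S →
  S.card = 2 * m → ∃ σ : Fin m → ZMod n, Half (S : Set (ZMod n)) σ

/-- two circulant graphs on `Z/n` joined by the edges `(x,0) - (x+t,1)`, `t ∈ T` -/
def BC (n : ℕ) (S R T : Finset (ZMod n)) : SimpleGraph (ZMod n × Bool) :=
  SimpleGraph.fromRel (fun u v =>
    (u.2 = false ∧ v.2 = false ∧ v.1 - u.1 ∈ S) ∨ (u.2 = true ∧ v.2 = true ∧ v.1 - u.1 ∈ R) ∨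
    (u.2 = false ∧ v.2 = true ∧ v.1 - u.1 ∈ T))

/-- the edges of the joined circulants -/
def S_EDGE : Prop := ∀ (n m : ℕ) [NeZero n], Odd n → ∀ (S R T : Finset (ZMod n)) (σ : Bool → Fin m → ZMod n),
  (0 : ZMod n) ∉ S → (0 : ZMod n) ∉ R → Half (S : Set (ZMod n)) (σ false) → Half (R : Set (ZMod n)) (σ true) →
  ∃ ψ : EE (Fin m) T n ≃ (BC n S R T).edgeSet,
    (∀ v i, v ∈ (ψ (inc σ (fun t : T => (t : ZMod n)) v i) : Sym2 (ZMod n × Bool))) ∧
    (∀ v e, v ∈ (ψ e : Sym2 (ZMod n × Bool)) → ∃ i, inc σ (fun t : T => (t : ZMod n)) v i = e) ∧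
    (∀ v, Function.Injective (inc σ (fun t : T => (t : ZMod n)) v))

def S_GB : Prop := ∀ (p k : ℕ) [Fact p.Prime], p ≠ 2 → ∀ (hk : k ≠ 0) (S R T : Finset (ZMod (p ^ k))),
  (∀ x ∈ S, -x ∈ S) → (∀ x ∈ R, -x ∈ R) → S.card + 1 = p → R.card + 1 = p →
  (∀ x ∈ S, ZMod.castHom (dvd_pow_self p hk) (ZMod p) x ≠ 0) →
  (∀ x ∈ R, ZMod.castHom (dvd_pow_self p hk) (ZMod p) x ≠ 0) →
  T.Nonempty → T.card < p → ∀ c, LECCk (BC (p ^ k) S R T) c

def S_GK : Prop := ∀ (p : ℕ), p.Prime → p ≠ 2 → ∀ (V : Type) [Fintype V], Fintype.card V = 2 * p →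
  ∀ c, LECCk (⊤ : SimpleGraph V) c

end Pool.Agent.W426.LE
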