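import Pool.Agent.W426.LE.SG
set_option autoImplicit false
set_option linter.all false

namespace Pool.Agent.W426.LE

open Finset
open scoped Classical

/-- the complete multipartite graph with `p` classes of size two -/
def S_CP : Prop := ∀ (p : ℕ), p.Prime → p ≠ 2 → ∀ (V : Type) [Fintype V] (G : SimpleGraph V),
  Fintype.card V = 2 * p → (∀ v, ∃! u, u ≠ v ∧ ¬ G.Adj v u) → ∀ c, LECCk G c

/-- circulant graph on `Z/m` with connection set `Ω` -/
def Circ (m : ℕ) (Ω : Finset (ZMod m)) : SimpleGraph (ZMod m) :=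
  SimpleGraph.fromRel (fun u v => v - u ∈ Ω)

/-- circulant graphs on `2 p^k` vertices with `p - 1` even connection elements, all prime to `p`,
and at least one and at most `p - 1` odd ones -/
def S_CIRC : Prop := ∀ (p k : ℕ), p.Prime → p ≠ 2 → k ≠ 0 → ∀ (Ω : Finset (ZMod (2 * p ^ k))),
  (∀ x ∈ Ω, -x ∈ Ω) →
  (Ω.filter (fun x => Even x.val)).card = p - 1 → (∀ x ∈ Ω, Even x.val → ¬ p ∣ x.val) →
  1 ≤ (Ω.filter (fun x => Odd x.val)).card → (Ω.filter (fun x => Odd x.val)).card ≤ p - 1 →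
  ∀ c, LECCk (Circ (2 * p ^ k) Ω) c

end Pool.Agent.W426.LE
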