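import Pool.Agent.W426.LE.EL
set_option autoImplicit false
set_option linter.all false

namespace Pool.Agent.W426.LE.EL

open Finset Pool.Agent.W426.LE
open scoped Classical

/-- graphs with an automorphism having two orbits of size `p^k` -/
def S_AUT : Prop := ∀ (p k : ℕ), p.Prime → p ≠ 2 → k ≠ 0 → ∀ (V : Type) [Fintype V] (H : SimpleGraph V)
  (σ : Equiv.Perm V) (a b : V) (t : ℕ),
  Fintype.card V = 2 * p ^ k → (∀ u v, H.Adj (σ u) (σ v) ↔ H.Adj u v) → σ ^ (p ^ k) = 1 →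
  (∀ v, ∃ i : ℕ, v = (σ ^ i) a ∨ v = (σ ^ i) b) →
  (∀ i : ℕ, H.Adj a ((σ ^ i) a) → ¬ p ∣ i) → (∀ i : ℕ, H.Adj b ((σ ^ i) b) → ¬ p ∣ i) →
  ((range (p ^ k)).filter (fun i => H.Adj a ((σ ^ i) a))).card = p - 1 →
  ((range (p ^ k)).filter (fun i => H.Adj b ((σ ^ i) b))).card = p - 1 →
  ((range (p ^ k)).filter (fun i => H.Adj a ((σ ^ i) b))).card = t → 1 ≤ t → t ≤ p - 1 →
  EL H (p - 1 + t)

end Pool.Agent.W426.LE.EL
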